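import Mathlib

/-!
# Two subspaces of the same dimension have a common complement
-/

namespace Pool.Agent.Helper76.UF

/-- Proof. Let `M1` be the `m × m` matrix `V i (inl j)` and `M2` the `m × n` matrix `V i (inr b)`;
`(M1 | M2)` has independent rows. Let `W` be the space of the row vectors `c` with `c M1 = 0`; then
`c ↦ c M2` is injective on `W`. The image of `c ↦ c M1` has a complement `C` in `K ^ m`, of the same
dimension as `W`, so there is a linear map `T : K ^ n → K ^ m` that maps `c M2`, `c ∈ W`,
isomorphically onto `C`. For all but finitely many `t`, `M1 + t M2 T` is invertible, because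
in terms of decompositions `W' ⊕ W → im M1 ⊕ C` its matrix is block triangular, with blocks
`M1' + t (..)` and `t T2`, with `M1'` and `T2` invertible (the part of `M2 T` from `W` to `im M1` is
zero). (Other proof: the function of `A` is a polynomial; by Cauchy-Binet, or by expansion in the
rows, its coefficients are, up to sign, the maximal minors of `(M1 | M2)`, which are not all zero. Or
induct on `m`. Or: the span `S` of the rows and the subspace `{x | x (inl j) = 0}` .. take a common
complement.) -/
theorem exists_chart {m n : ℕ} {K : Type*} [Field K] [Infinite K]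
    (V : Fin m → Fin m ⊕ Fin n → K) (hV : LinearIndependent K V) :
    ∃ A : Matrix (Fin m) (Fin n) K,
      (Matrix.of fun i j => V i (.inl j) + ∑ b, A j b * V i (.inr b)).det ≠ 0 := by
  classical
  -- the two linear maps `c ↦ c M1` and `c ↦ c M2`
  let f : (Fin m → K) →ₗ[K] (Fin m → K) :=
    (Matrix.of fun i j => V i (.inl j) : Matrix (Fin m) (Fin m) K).vecMulLinear
  let g : (Fin m → K) →ₗ[K] (Fin n → K) :=
    (Matrix.of fun i b => V i (.inr b) : Matrix (Fin m) (Fin n) K).vecMulLinear
  have hf : ∀ c j, f c j = ∑ i, c i * V i (.inl j) := fun c j => rfl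
  have hg : ∀ c b, g c b = ∑ i, c i * V i (.inr b) := fun c b => rfl
  have hfg : ∀ c, f c = 0 → g c = 0 → c = 0 := by
    intro c h1 h2
    rw [Fintype.linearIndependent_iff] at hV
    funext i
    refine hV c ?_ i
    funext x
    rw [Finset.sum_apply]
    rcases x with j | b
    · have := congrFun h1 j
      rw [hf] at this
      simpa using this
    · have := congrFun h2 b
      rw [hg] at this
      simpa using this
  obtain ⟨C, hC⟩ := (LinearMap.range f).exists_isCompl
  have hdim : Module.finrank K (LinearMap.ker f) = Module.finrank K C := by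
    have h1 := LinearMap.finrank_range_add_finrank_ker f
    have h2 := Submodule.finrank_add_eq_of_isCompl hC
    omega
  let e : LinearMap.ker f ≃ₗ[K] C := LinearEquiv.ofFinrankEq _ _ hdim
  have hinj : LinearMap.ker (g.comp (LinearMap.ker f).subtype) = ⊥ := by
    rw [LinearMap.ker_eq_bot']
    rintro ⟨c, hc⟩ h
    have h2 : g c = 0 := h
    exact Subtype.ext (hfg c (LinearMap.mem_ker.1 hc) h2)
  obtain ⟨h, hh⟩ := LinearMap.exists_leftInverse_of_injective _ hinj
  let T : (Fin n → K) →ₗ[K] (Fin m → K) := C.subtype.comp (e.toLinearMap.comp h)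
  refine ⟨LinearMap.toMatrix' T, fun hdet => ?_⟩
  obtain ⟨c, hc0, hc⟩ := Matrix.exists_vecMul_eq_zero_iff.2 hdet
  have hsum : f c + T (g c) = 0 := by
    funext j
    have h1 := congrFun hc j
    rw [Matrix.vecMul, dotProduct] at h1
    have h2 : T (g c) j = ∑ b, LinearMap.toMatrix' T j b * g c b := by
      have h3 : (LinearMap.toMatrix' T).mulVec (g c) = T (g c) := by
        rw [LinearMap.toMatrix'_mulVec]
      rw [← h3]
      rfl
    rw [Pi.add_apply, h2, hf]
    simp only [hg]
    rw [← h1]
    simp only [Matrix.of_apply, mul_add, Finset.sum_add_distrib, Finset.mul_sum]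
    congr 1
    rw [Finset.sum_comm]
    refine Finset.sum_congr rfl fun i _ => Finset.sum_congr rfl fun b _ => ?_
    ring
  have hTC : T (g c) ∈ C := (e (h (g c))).2
  have hfr : f c ∈ LinearMap.range f := LinearMap.mem_range_self f c
  have hfc : f c = 0 := by
    have h1 : f c ∈ C := by
      have : f c = - T (g c) := eq_neg_of_add_eq_zero_left hsum
      rw [this]
      exact C.neg_mem hTC
    exact (Submodule.disjoint_def.1 hC.disjoint) _ hfr h1
  have hTg : T (g c) = 0 := by
    rw [hfc, zero_add] at hsum
    exact hsum
  have hhg : h (g c) = 0 := by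
    have h1 : e (h (g c)) = 0 := Subtype.ext hTg
    exact e.map_eq_zero_iff.1 h1
  have hcW : h (g c) = (⟨c, LinearMap.mem_ker.2 hfc⟩ : LinearMap.ker f) :=
    LinearMap.congr_fun hh ⟨c, LinearMap.mem_ker.2 hfc⟩
  rw [hcW] at hhg
  exact hc0 (congrArg Subtype.val hhg)

end Pool.Agent.Helper76.UF
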