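import Pool.Agent.Helper76.UF.Defs4
import Pool.Agent.Helper76.UF.Sq.Q8a
import Pool.Agent.Helper76.UF.St.P4

/-!
# Linear spaces in cubic hypersurfaces: the certificate for a fixed subspace
-/

namespace Pool.Agent.Helper76.UF

open MvPolynomial

/-! ### Truncation of the parameters -/

section r2_loc

variable {m : ℕ} {ω : Type*} [Fintype ω] {A : Type*} [CommRing A]

theorem r2_chain (D : Ten (Ix m ω) A) (U : Fin m → Ix m ω → A) (π π' : ℕ → Par m ω → A)
    (k : ℕ) (h : ∀ j < k, π j = π' j) : chain D U π k = chain D U π' k := by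
  induction k with
  | zero => rfl
  | succ k ih => rw [chain, chain, ih fun j hj => h j (by omega), h k (by omega)]

theorem r2_dch (D : Ten (Ix m ω) A) (U : Fin m → Ix m ω → A) (π π' : ℕ → Par m ω → A)
    (a : Fin m → Ix m ω → A) (v : ℕ → Par m ω → A) (k : ℕ) (h : ∀ j < k, π j = π' j) :
    dch D U π a v k = dch D U π' a v k := by
  induction k with
  | zero => rw [dch_zero, dch_zero]
  | succ k ih =>
    rw [dch_succ, dch_succ, ih fun j hj => h j (by omega), h k (by omega),
      r2_chain D U π π' k fun j hj => h j (by omega)]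

theorem r2_full {n : ℕ} {K : Type*} [Field K] {D : Ten (Ix m (Fin n)) K}
    {U : Fin m → Ix m (Fin n) → K} {π π' : ℕ → Par m (Fin n) → K} {k : ℕ}
    (hF : Full D U π k) (h : ∀ j < k + 1, π j = π' j) : Full D U π' k := by
  have hc : ∀ i ≤ k, chain D U π' i = chain D U π i := fun i hi =>
    (r2_chain D U π π' i fun j hj => h j (by omega)).symm
  refine ⟨hF.sym, hF.van, ⟨fun i hi => ?_, fun i hi => ?_⟩, ?_, ?_⟩
  · rw [hc i hi, ← h i (by omega)]
    exact hF.good.det i hi
  · rw [hc i hi.le, ← h i (by omega)]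
    exact hF.good.w i hi
  · have hS : Sn D U π' k = Sn D U π k := by
      ext b
      rw [mem_Sn, mem_Sn]
      refine exists_congr fun v => ?_
      rw [r2_dch D U π π' 0 v k fun j hj => h j (by omega)]
    rw [hS]
    exact hF.rank
  · rw [hc k le_rfl]
    exact hF.chart

end r2_loc

/-! ### The certificate with parameters -/

section r2_cert

variable {m n : ℕ} {A K : Type*} [CommRing A] [Field K]

/-- The product of the determinants and values that have to be nonzero. -/
noncomputable def r2_w (D : Ten (Ix m (Fin n)) A) (U : Fin m → Ix m (Fin n) → A)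
    (π : ℕ → Par m (Fin n) → A) (k : ℕ) {r : ℕ} (t : Fin r → Fin k × Par m (Fin n))
    (q : Fin r → Fin m × Ix m (Fin n)) : A :=
  (∏ i ∈ Finset.range (k + 1), (QM D (chain D U π i) (gP (π i))).det) *
  (∏ i ∈ Finset.range k, wf D (chain D U π i) (yP D (chain D U π i) (π i)) (kP (π i))) *
  (Matrix.of fun i j => chain D U π k i (.inl j)).det *
  (Matrix.of fun i j => jac D U π k (t i) (q j)).det

theorem r2_w_iff (f : A →+* K) (D : Ten (Ix m (Fin n)) A) (U : Fin m → Ix m (Fin n) → A)
    (π : ℕ → Par m (Fin n) → A) (k : ℕ) {r : ℕ} (t : Fin r → Fin k × Par m (Fin n))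
    (q : Fin r → Fin m × Ix m (Fin n)) :
    f (r2_w D U π k t q) ≠ 0 ↔
      Good (mapT f D) (fun i l => f (U i l)) (fun a p => f (π a p)) k ∧
      (Matrix.of fun i j => chain (mapT f D) (fun i l => f (U i l))
        (fun a p => f (π a p)) k i (.inl j)).det ≠ 0 ∧
      (Matrix.of fun i j => jac (mapT f D) (fun i l => f (U i l))
        (fun a p => f (π a p)) k (t i) (q j)).det ≠ 0 := by
  have h1 : (Matrix.of fun i j => chain (mapT f D) (fun i l => f (U i l))
        (fun a p => f (π a p)) k i (.inl j)).det =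
      f (Matrix.of fun i j => chain D U π k i (.inl j)).det := by
    rw [RingHom.map_det]
    congr 1
    ext i j
    exact (map_chain D U f π k i (.inl j)).symm
  have h2 : (Matrix.of fun i j => jac (mapT f D) (fun i l => f (U i l))
        (fun a p => f (π a p)) k (t i) (q j)).det =
      f (Matrix.of fun i j => jac D U π k (t i) (q j)).det := by
    rw [RingHom.map_det]
    congr 1
    ext i j
    exact (map_jac f D U π k (t i) (q j)).symm
  rw [h1, h2, r2_w, map_mul, map_mul, map_mul, map_prod, map_prod, mul_ne_zero_iff,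
    mul_ne_zero_iff, mul_ne_zero_iff, Finset.prod_ne_zero_iff, Finset.prod_ne_zero_iff]
  constructor
  · rintro ⟨⟨⟨h3, h4⟩, h5⟩, h6⟩
    refine ⟨⟨fun i hi => ?_, fun i hi => ?_⟩, h5, h6⟩
    · rw [q8a_det]
      exact h3 i (Finset.mem_range.2 (by omega))
    · rw [q8a_w]
      exact h4 i (Finset.mem_range.2 hi)
  · rintro ⟨h3, h5, h6⟩
    refine ⟨⟨⟨fun i hi => ?_, fun i hi => ?_⟩, h5⟩, h6⟩
    · rw [← q8a_det]
      exact h3.det i (by have := Finset.mem_range.1 hi; omega)
    · rw [← q8a_w]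
      exact h3.w i (Finset.mem_range.1 hi)

theorem r2_eval {S T : Type*} (w : MvPolynomial (S ⊕ T) ℚ) {L : Type*} [Field L]
    [Algebra ℚ L] (x : T → L) (y : S → L) : aeval (Sum.elim y x) w =
      eval y (map (aeval x : MvPolynomial T ℚ →ₐ[ℚ] L).toRingHom (sumAlgEquiv ℚ S T w)) := by
  induction w using MvPolynomial.induction_on with
  | C a =>
    rw [sumAlgEquiv_C_inl, map_C, eval_C, aeval_C]
    exact (aeval_C x a).symm
  | add p q hp hq => rw [map_add, map_add, map_add, map_add, hp, hq]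
  | mul_X p s hp =>
    rw [map_mul, map_mul, map_mul, map_mul, hp, aeval_X]
    congr 1
    rcases s with s | s
    · rw [sumAlgEquiv_X_inl, map_X, eval_X]
      rfl
    · rw [sumAlgEquiv_X_inr, map_C, eval_C]
      exact (aeval_X x s).symm

theorem r2_coef {S T : Type*} (w : MvPolynomial (S ⊕ T) ℚ) {K : Type*} [Field K]
    [Algebra ℚ K] (x : T → K) (y : S → K) (h : aeval (Sum.elim y x) w ≠ 0) :
    ∃ v : MvPolynomial T ℚ, aeval x v ≠ 0 ∧
      ∀ (L : Type) [Field L] [Infinite L] [Algebra ℚ L] (x' : T → L), aeval x' v ≠ 0 →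
        ∃ y' : S → L, aeval (Sum.elim y' x') w ≠ 0 := by
  rw [r2_eval] at h
  have h1 : map (aeval x : MvPolynomial T ℚ →ₐ[ℚ] K).toRingHom (sumAlgEquiv ℚ S T w) ≠ 0 := by
    intro h2
    rw [h2, map_zero] at h
    exact h rfl
  obtain ⟨e, he⟩ := exists_coeff_ne_zero h1
  rw [coeff_map] at he
  refine ⟨coeff e (sumAlgEquiv ℚ S T w), he, ?_⟩
  intro L _ _ _ x' hx'
  by_contra hcon
  push Not at hcon
  have h2 : map (aeval x' : MvPolynomial T ℚ →ₐ[ℚ] L).toRingHom (sumAlgEquiv ℚ S T w) = 0 := by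
    refine MvPolynomial.funext fun y' => ?_
    rw [← r2_eval, map_zero]
    exact hcon y'
  have h3 := congrArg (coeff e) h2
  rw [coeff_map, coeff_zero] at h3
  exact hx' h3

/-- The universal form. -/
noncomputable def r2_D (m n k : ℕ) : Ten (Ix m (Fin n))
    (MvPolynomial ((Fin (k + 1) × Par m (Fin n)) ⊕
      (Ix m (Fin n) × Ix m (Fin n) × Ix m (Fin n))) ℚ) :=
  fun i j l => X (.inr (i, j, l))

/-- The universal parameters. -/
noncomputable def r2_P (m n k : ℕ) : ℕ → Par m (Fin n) →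
    (MvPolynomial ((Fin (k + 1) × Par m (Fin n)) ⊕
      (Ix m (Fin n) × Ix m (Fin n) × Ix m (Fin n))) ℚ) :=
  fun j p => if h : j < k + 1 then X (.inl (⟨j, h⟩, p)) else 0

/-- Parameters from finitely many values. -/
def r2_ext {k : ℕ} (y : Fin (k + 1) × Par m (Fin n) → K) : ℕ → Par m (Fin n) → K :=
  fun j p => if h : j < k + 1 then y (⟨j, h⟩, p) else 0

theorem r2_mapD [Algebra ℚ K] (k : ℕ) (D : Ten (Ix m (Fin n)) K)
    (y : Fin (k + 1) × Par m (Fin n) → K) :
    mapT (aeval (Sum.elim y fun i => D i.1 i.2.1 i.2.2) : _ →ₐ[ℚ] K).toRingHom (r2_D m n k) = D := by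
  funext i j l
  exact aeval_X _ _

theorem r2_mapP [Algebra ℚ K] (k : ℕ) (D : Ten (Ix m (Fin n)) K)
    (y : Fin (k + 1) × Par m (Fin n) → K) :
    (fun j p => (aeval (Sum.elim y fun i => D i.1 i.2.1 i.2.2) : _ →ₐ[ℚ] K).toRingHom
      (r2_P m n k j p)) = r2_ext y := by
  funext j p
  rw [r2_P, r2_ext]
  split_ifs with h
  · exact aeval_X _ _
  · exact map_zero _

theorem r2_mapS {B : Type*} [CommRing B] (f : B →+* K) :
    (fun i l => f (std m (Fin n) B i l)) = std m (Fin n) K := by
  funext i l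
  rcases l with l | l
  · simp only [std, Sum.elim_inl]
    split_ifs
    · exact map_one f
    · exact map_zero f
  · simp only [std, Sum.elim_inr]
    exact map_zero f

theorem r2_iff [Algebra ℚ K] (k : ℕ) (D : Ten (Ix m (Fin n)) K)
    (y : Fin (k + 1) × Par m (Fin n) → K) {r : ℕ} (t : Fin r → Fin k × Par m (Fin n))
    (q : Fin r → Fin m × Ix m (Fin n)) :
    aeval (Sum.elim y fun i => D i.1 i.2.1 i.2.2)
      (r2_w (r2_D m n k) (std m _ _) (r2_P m n k) k t q) ≠ 0 ↔
      Good D (std m _ K) (r2_ext y) k ∧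
      (Matrix.of fun i j => chain D (std m _ K) (r2_ext y) k i (.inl j)).det ≠ 0 ∧
      (Matrix.of fun i j => jac D (std m _ K) (r2_ext y) k (t i) (q j)).det ≠ 0 := by
  have h := r2_w_iff (aeval (Sum.elim y fun i => D i.1 i.2.1 i.2.2) : _ →ₐ[ℚ] K).toRingHom
    (r2_D m n k) (std m _ _) (r2_P m n k) k t q
  rw [r2_mapD, r2_mapP, r2_mapS] at h
  exact h

end r2_cert

/-- Proof. Let `S = Fin (k + 1) × Par m (Fin n)`, `ι = Ix m (Fin n)` and
`R = MvPolynomial (ι × ι × ι ⊕ S) ℚ`. Over `R` let `D' i j l = X (inl (i, j, l))` and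
`π' j p = X (inr (j, p))` for `j < k + 1` and `0` otherwise. Let `w ∈ R` be the product of the
determinants and the values of `wf` in `Good` for the chain of `D'`, `std`, `π'`, of the determinant of
the block of `chain D' std π' k`, and of a minor of size `m * (m + n) - (m + 2).choose 3` of
`jac D' std π' k` that is not zero at `Dr`, `πr` (`rank_iff`). By `map_chain`, `map_QM`, `map_wf`,
`map_yP`, `map_jac` for the evaluation at `Dr`, `πr` (the parameters with `j ≥ k + 1` do not
matter) the value of `w` at the real point is not zero. Regard `w` as a polynomial in the variables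
`X (inr s)` with coefficients in `MvPolynomial (ι × ι × ι) ℚ` (`MvPolynomial.sumAlgEquiv`) and let
`v` be one of its coefficients whose value at `Dr` is not zero. If `aeval D v ≠ 0` for a form `D` over
`L` then `w` at `D` is a nonzero polynomial in the variables `X (inr s)`, so it has a nonzero value at
some `π : S → L` (`MvPolynomial.funext`, `L` is infinite). For this `π` (extended by `0`) `Good`,
`chart` and `m * (m + n) - (m + 2).choose 3 ≤ finrank Sn` (`rank_iff`) hold, and
`finrank Sn ≤ finrank TS` by `Sn_le_TS`, `finrank_TS` (the form is symmetric and vanishes on the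
standard subspace). -/
theorem cert2 (m n k : ℕ) (Dr : Ten (Ix m (Fin n)) ℝ) (πr : ℕ → Par m (Fin n) → ℝ)
    (hr : Full Dr (std m _ ℝ) πr k) :
    ∃ v : MvPolynomial (Ix m (Fin n) × Ix m (Fin n) × Ix m (Fin n)) ℚ,
      aeval (fun i => Dr i.1 i.2.1 i.2.2) v ≠ 0 ∧
      ∀ (L : Type) [Field L] [CharZero L] (D : Ten (Ix m (Fin n)) L), IsSym D →
        VanOn D (std m _ L) → aeval (fun i => D i.1 i.2.1 i.2.2) v ≠ 0 →
        ∃ π : ℕ → Par m (Fin n) → L, Full D (std m _ L) π k := by
  have hr' : Full Dr (std m _ ℝ)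
      (r2_ext fun t : Fin (k + 1) × Par m (Fin n) => πr t.1 t.2) k := by
    refine r2_full hr fun j hj => ?_
    funext p
    rw [r2_ext, dif_pos hj]
  have h1 : m * (m + n) - (m + 2).choose 3 ≤ Module.finrank ℝ (Sn Dr (std m _ ℝ)
      (r2_ext fun t : Fin (k + 1) × Par m (Fin n) => πr t.1 t.2) k) := by
    have := hr'.rank
    omega
  obtain ⟨t, q, htq⟩ := (rank_iff _ _ _ _ _).1 h1
  obtain ⟨v, hv, H⟩ := r2_coef (r2_w (r2_D m n k) (std m _ _) (r2_P m n k) k t q)
    (fun i => Dr i.1 i.2.1 i.2.2) (fun t => πr t.1 t.2)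
    ((r2_iff k Dr _ t q).2 ⟨hr'.good, hr'.chart, htq⟩)
  refine ⟨v, hv, ?_⟩
  intro L _ _ D hD hvan hne
  obtain ⟨y, hy⟩ := H L (fun i => D i.1 i.2.1 i.2.2) hne
  obtain ⟨hg, hc, hm⟩ := (r2_iff k D y t q).1 hy
  refine ⟨r2_ext y, hD, hvan, hg, ?_, hc⟩
  have h3 : m * (m + n) - (m + 2).choose 3 ≤ Module.finrank L (Sn D (std m _ L) (r2_ext y) k) :=
    (rank_iff _ _ _ _ _).2 ⟨t, q, hm⟩
  have h4 : Module.finrank L (Sn D (std m _ L) (r2_ext y) k) ≤
      Module.finrank L (TS D (chain D (std m _ L) (r2_ext y) k)) :=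
    Submodule.finrank_mono (Sn_le_TS hD hvan _ _)
  have h5 := finrank_TS D hD (chain D (std m _ L) (r2_ext y) k) _ (hg.det k le_rfl)
  rw [Fintype.card_fin] at h5
  have h6 := hr.rank
  omega

end Pool.Agent.Helper76.UF
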