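import Pool.Agent.Helper76.UF.Defs4
import Pool.Agent.Helper76.UF.St.P4

/-!
# Linear spaces in cubic hypersurfaces: cubic forms and symmetric trilinear forms
-/

namespace Pool.Agent.Helper76.UF

open MvPolynomial

theorem r3_ms {ι : Type*} (i j k : ι) :
    Finsupp.toMultiset (e3 i j k).1 = ({i, j, k} : Multiset ι) := by
  rw [e3]
  simp only [map_add, Finsupp.toMultiset_single, one_smul, Multiset.insert_eq_cons]
  rfl

theorem r3_exists {ι : Type*} (e : E3 ι) : ∃ i j k, e3 i j k = e := by
  classical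
  have h5 : Multiset.card (Finsupp.toMultiset e.1) = 3 := by
    rw [Finsupp.card_toMultiset]
    exact e.2
  obtain ⟨i, j, k, h6⟩ := Multiset.card_eq_three.1 h5
  refine ⟨i, j, k, ?_⟩
  apply Subtype.ext
  apply Finsupp.orderIsoMultiset.injective
  rw [Finsupp.coe_orderIsoMultiset, r3_ms, h6]

theorem r3_sym {ι β : Type*} (F : ι → ι → ι → β) (h1 : ∀ i j k, F i j k = F j i k)
    (h2 : ∀ i j k, F i j k = F i k j) {i j k i' j' k' : ι}
    (h : e3 i j k = e3 i' j' k') : F i j k = F i' j' k' := by
  apply p4_perm F h1 h2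
  rw [← r3_ms, ← r3_ms, h]

theorem r3_swap12 {ι : Type*} (i j k : ι) : e3 i j k = e3 j i k := by
  apply Subtype.ext
  simp only [e3]
  rw [add_comm (Finsupp.single i 1 : ι →₀ ℕ)]

theorem r3_swap23 {ι : Type*} (i j k : ι) : e3 i j k = e3 i k j := by
  apply Subtype.ext
  simp only [e3]
  rw [add_right_comm]

theorem r3_coeff {ι R : Type*} [Fintype ι] [CommRing R] (D : Ten ι R) (e : E3 ι) :
    coeff e.1 (cub D) = ∑ i, ∑ j, ∑ k,
      (open scoped Classical in if e3 i j k = e then D i j k else 0) := by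
  classical
  rw [cub]
  simp only [coeff_sum]
  refine Finset.sum_congr rfl fun i _ => Finset.sum_congr rfl fun j _ =>
    Finset.sum_congr rfl fun k _ => ?_
  have h : (C (D i j k) * X i * X j * X k : MvPolynomial ι R) =
      monomial (e3 i j k).1 (D i j k) := by
    rw [X, X, X, C_mul_monomial, monomial_mul, monomial_mul]
    simp [e3]
  rw [h, coeff_monomial]
  by_cases h' : e3 i j k = e
  · rw [if_pos (congrArg Subtype.val h'), if_pos h']
  · rw [if_neg (fun h'' => h' (Subtype.ext h'')), if_neg h']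

theorem r3_coeff0 {ι R : Type*} [Fintype ι] [CommRing R] (D : Ten ι R) (e : ι →₀ ℕ)
    (he : e.degree ≠ 3) : coeff e (cub D) = 0 := by
  classical
  rw [cub]
  simp only [coeff_sum]
  refine Finset.sum_eq_zero fun i _ => Finset.sum_eq_zero fun j _ =>
    Finset.sum_eq_zero fun k _ => ?_
  have h : (C (D i j k) * X i * X j * X k : MvPolynomial ι R) =
      monomial (e3 i j k).1 (D i j k) := by
    rw [X, X, X, C_mul_monomial, monomial_mul, monomial_mul]
    simp [e3]
  rw [h, coeff_monomial, if_neg]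
  intro h'
  exact he (by rw [← h']; exact (e3 i j k).2)

theorem r3_count {ι : Type*} [Fintype ι] (e : E3 ι) :
    (e.1.prod fun _ n => (n.factorial : ℚ)) * (∑ i : ι, ∑ j : ι, ∑ k : ι,
      (open scoped Classical in if e3 i j k = e then (1 : ℚ) else 0)) = 6 := by
  classical
  have h1 := r3_coeff (R := ℚ) (fun _ _ _ => 1) e
  have h2 : cub (fun _ _ _ => (1 : ℚ) : Ten ι ℚ) = (∑ i : ι, (1 : ℚ) • X i) ^ 3 := by
    rw [cub]
    simp only [map_one, one_mul, one_smul]
    rw [pow_three, Finset.sum_mul_sum, Finset.sum_mul]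
    refine Finset.sum_congr rfl fun i _ => ?_
    rw [Finset.mul_sum]
    refine Finset.sum_congr rfl fun j _ => ?_
    rw [Finset.mul_sum]
    refine Finset.sum_congr rfl fun k _ => ?_
    ring
  have h3 := coeff_linearCombination_X_pow_of_fintype (fun _ : ι => (1 : ℚ)) e.1 3
  have h4 : e.1.sum (fun _ m => m) = 3 := e.2
  rw [if_pos h4] at h3
  rw [← h1, h2, h3]
  simp only [one_pow, Finsupp.prod, Finset.prod_const_one, mul_one]
  have h5 := Nat.multinomial_spec e.1.support e.1
  rw [← Finsupp.multinomial_eq] at h5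
  have h6 : (∑ i ∈ e.1.support, e.1 i) = 3 := e.2
  rw [h6] at h5
  have h7 : (((∏ i ∈ e.1.support, (e.1 i).factorial) * e.1.multinomial : ℕ) : ℚ) =
      ((Nat.factorial 3 : ℕ) : ℚ) := by
    rw [h5]
  push_cast at h7
  rw [h7]
  norm_num [Nat.factorial]

theorem r3_coeff_sym {ι A : Type*} [Fintype ι] [CommRing A] [Algebra ℚ A] (D : Ten ι A)
    (hD : IsSym D) (i j k : ι) :
    algebraMap ℚ A (((e3 i j k).1.prod fun _ n => (n.factorial : ℚ)) / 6) *
      coeff (e3 i j k).1 (cub D) = D i j k := by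
  classical
  rw [r3_coeff]
  have h1 : ∀ i' j' k' : ι, (if e3 i' j' k' = e3 i j k then D i' j' k' else 0) =
      algebraMap ℚ A (if e3 i' j' k' = e3 i j k then 1 else 0) * D i j k := by
    intro i' j' k'
    by_cases h : e3 i' j' k' = e3 i j k
    · rw [if_pos h, if_pos h, map_one, one_mul]
      exact r3_sym D hD.swap12 hD.swap23 h
    · rw [if_neg h, if_neg h, map_zero, zero_mul]
  simp only [h1, ← Finset.sum_mul, ← map_sum]
  rw [← mul_assoc, ← map_mul, div_mul_eq_mul_div, r3_count]
  simp

theorem finite_E3 (ι : Type*) [Finite ι] : Finite (E3 ι) := by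
  apply Finite.of_surjective (fun t : ι × ι × ι => e3 t.1 t.2.1 t.2.2)
  intro e
  obtain ⟨i, j, k, h⟩ := r3_exists e
  exact ⟨(i, j, k), h⟩

theorem isSym_tenC {ι A : Type*} [CommRing A] [Algebra ℚ A] (y : E3 ι → A) :
    IsSym (tenC y) := by
  constructor
  · intro i j k
    rw [tenC, tenC, r3_swap12]
  · intro i j k
    rw [tenC, tenC, r3_swap23]

theorem map_tenC {ι A B : Type*} [CommRing A] [Algebra ℚ A] [CommRing B] [Algebra ℚ B]
    (f : A →ₐ[ℚ] B) (y : E3 ι → A) (i j k : ι) :
    f (tenC y i j k) = tenC (fun e => f (y e)) i j k := by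
  rw [tenC, tenC, map_mul, AlgHom.commutes]

/-- Proof. `coeff e (cub D)` is the sum of `D i j k` over the triples with `e3 i j k = e`. For
`D = tenC y` all the terms are equal to `y e * (∏ (e i)!) / 6` and their number is
`6 / ∏ (e i)!`: 1, 3 or 6, in the cases `e = 3 i`, `2 i + j`, `i + j + k`. -/
theorem coeff_cub_tenC {ι A : Type*} [Fintype ι] [CommRing A] [Algebra ℚ A] (y : E3 ι → A)
    (e : E3 ι) : coeff e.1 (cub (tenC y)) = y e := by
  classical
  rw [r3_coeff]
  have h1 : ∀ i j k : ι, (if e3 i j k = e then tenC y i j k else 0) =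
      algebraMap ℚ A (if e3 i j k = e then 1 else 0) *
        (algebraMap ℚ A ((e.1.prod fun _ n => (n.factorial : ℚ)) / 6) * y e) := by
    intro i j k
    by_cases h : e3 i j k = e
    · rw [if_pos h, if_pos h, map_one, one_mul, tenC, h]
    · rw [if_neg h, if_neg h, map_zero, zero_mul]
  simp only [h1, ← Finset.sum_mul, ← map_sum]
  rw [← mul_assoc, ← map_mul, mul_comm (∑ i, _), div_mul_eq_mul_div, r3_count]
  simp

theorem cub_tenC {ι K : Type*} [Fintype ι] [CommRing K] [Algebra ℚ K] (F : MvPolynomial ι K)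
    (hF : F.IsHomogeneous 3) : cub (tenC fun e => coeff e.1 F) = F := by
  ext e
  by_cases h : e.degree = 3
  · exact coeff_cub_tenC (fun e => coeff e.1 F) ⟨e, h⟩
  · rw [r3_coeff0 _ _ h, hF.coeff_eq_zero h]

theorem tenC_cub {ι K : Type*} [Fintype ι] [CommRing K] [Algebra ℚ K] (D : Ten ι K)
    (hD : IsSym D) : tenC (fun e => coeff e.1 (cub D)) = D := by
  funext i j k
  exact r3_coeff_sym D hD i j k

theorem r3_tri_std {m n : ℕ} {K : Type*} [CommRing K] (D : Ten (Ix m (Fin n)) K)
    (i j k : Fin m) : tri D (std m _ K i) (std m _ K j) (std m _ K k) =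
      D (.inl i) (.inl j) (.inl k) := by
  have h : ∀ i : Fin m, std m (Fin n) K i = Pi.single (Sum.inl i) 1 := by
    intro i
    funext l
    rcases l with l | l
    · by_cases h : l = i
      · subst h
        simp [std]
      · simp [std, h]
    · simp [std]
  rw [h, h, h, tri, Finset.sum_eq_single (Sum.inl i), Finset.sum_eq_single (Sum.inl j),
    Finset.sum_eq_single (Sum.inl k)]
  · simp
  · intro k _ hk
    simp [hk]
  · intro h
    exact absurd (Finset.mem_univ _) h
  · intro j _ hj
    simp [hj]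
  · intro h
    exact absurd (Finset.mem_univ _) h
  · intro i _ hi
    simp [hi]
  · intro h
    exact absurd (Finset.mem_univ _) h

/-- Proof. `tri D (std i) (std j) (std k) = D (inl i) (inl j) (inl k)` and an exponent of degree 3
with support in the first block is `e3 (inl i) (inl j) (inl k)` for some `i`, `j`, `k`. -/
theorem vanOn_tenC {m n : ℕ} {K : Type*} [CommRing K] [Algebra ℚ K]
    (y : E3 (Ix m (Fin n)) → K) (h : ∀ e : E3 (Ix m (Fin n)), (∀ j, e.1 (.inr j) = 0) → y e = 0) :
    VanOn (tenC y) (std m _ K) := by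
  intro i j k
  rw [r3_tri_std, tenC, h, mul_zero]
  intro l
  simp [e3]

/-- Converse. -/
theorem coeff_cub_of_vanOn {m n : ℕ} {K : Type*} [CommRing K] (D : Ten (Ix m (Fin n)) K)
    (hD : VanOn D (std m _ K)) (e : E3 (Ix m (Fin n))) (he : ∀ j, e.1 (.inr j) = 0) :
    coeff e.1 (cub D) = 0 := by
  classical
  rw [r3_coeff]
  refine Finset.sum_eq_zero fun i _ => Finset.sum_eq_zero fun j _ =>
    Finset.sum_eq_zero fun k _ => ?_
  by_cases h : e3 i j k = e
  · rw [if_pos h]
    have h1 : ∀ l : Fin n, i ≠ .inr l ∧ j ≠ .inr l ∧ k ≠ .inr l := by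
      intro l
      have h2 := he l
      rw [← h, e3] at h2
      simp only [Finsupp.add_apply, Nat.add_eq_zero_iff, Finsupp.single_apply] at h2
      obtain ⟨⟨h3, h4⟩, h5⟩ := h2
      refine ⟨?_, ?_, ?_⟩
      · intro h6
        rw [if_pos h6] at h3
        exact one_ne_zero h3
      · intro h6
        rw [if_pos h6] at h4
        exact one_ne_zero h4
      · intro h6
        rw [if_pos h6] at h5
        exact one_ne_zero h5
    rcases i with i | i
    · rcases j with j | j
      · rcases k with k | k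
        · have := hD i j k
          rwa [r3_tri_std] at this
        · exact absurd rfl (h1 k).2.2
      · exact absurd rfl (h1 j).2.1
    · exact absurd rfl (h1 i).1
  · rw [if_neg h]

end Pool.Agent.Helper76.UF
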