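import Pool.Agent.Helper76.UF.Defs5
import Pool.Agent.Helper76.UF.Sq.Q4

/-!
# Linear spaces in cubic hypersurfaces: dominance of the family of pairs
-/

namespace Pool.Agent.Helper76.UF

open MvPolynomial

theorem s2_map_vD {m n : ℕ} {R B : Type*} [CommRing R] [CommRing B] (φ : R →+* B)
    (x : Wv m n → R) : mapT φ (vD x) = vD (fun s => φ (x s)) := by
  rw [vD, mapT_compT, q4_map_symvan]
  have h : (hm (fun q => - x (.inr q))).map φ = hm (fun q => - φ (x (.inr q))) := by
    ext i j
    rcases i with i | i <;> rcases j with j | j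
    · by_cases h : i = j
      · subst h
        simp [hm]
      · simp [hm, h]
    · simp [hm]
    · simp [hm]
    · by_cases h : i = j
      · subst h
        simp [hm]
      · simp [hm, h]
  rw [h]
  rfl

/-- the derivative of the matrix `hm a` in the direction `a'` -/
def s2_A {m n : ℕ} {K : Type*} [Zero K] (a' : Fin m × Fin n → K) :
    Matrix (Ix m (Fin n)) (Ix m (Fin n)) K :=
  Matrix.fromBlocks 0 0 (Matrix.of fun b j => a' (j, b)) 0

theorem s2_dir {m n : ℕ} {K : Type*} [Field K] [CharZero K]
    (D : Ten (Ix m (Fin n)) K) (hD : IsSym D)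
    (h0 : ∀ i j l : Fin m, D (.inl i) (.inl j) (.inl l) = 0) (g : Pr m → Ix m (Fin n) → K)
    (hdet : (QM D (std m (Fin n) K) g).det ≠ 0) (D' : Ten (Ix m (Fin n)) K) (hD' : IsSym D') :
    ∃ (c : Ten (Ix m (Fin n)) K) (a' : Fin m × Fin n → K), ∀ i j l, D' i j l =
      symvan c i j l +
        ∑ r, (s2_A a' r i * D r j l + s2_A a' r j * D i r l + s2_A a' r l * D i j r) := by
  have hS : ∀ i : Fin m, ∃ y : Ix m (Fin n) → K, ∀ j k,
      tri D (std m (Fin n) K j) (std m (Fin n) K k) y = D' (.inl i) (.inl j) (.inl k) / 3 := by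
    intro i
    refine q4a_alpha D hD g hdet (fun j k => D' (.inl i) (.inl j) (.inl k) / 3) fun j k => ?_
    rw [hD'.swap23]
  choose α hα using hS
  have hα1 : ∀ i j k, ∑ r, α i r * D r (.inl j) (.inl k) = D' (.inl i) (.inl j) (.inl k) / 3 := by
    intro i j k
    rw [← q4a_std, hD.tri12, hD.tri23, hα]
  set a' : Fin m × Fin n → K := fun q => α q.1 (.inr q.2) with ha'
  set a : Matrix (Ix m (Fin n)) (Ix m (Fin n)) K := s2_A a' with ha
  have ha1 : ∀ i j k, ∑ r, a r (.inl i) * D r (.inl j) (.inl k) =
      D' (.inl i) (.inl j) (.inl k) / 3 := by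
    intro i j k
    rw [← hα1, Fintype.sum_sum_type, Fintype.sum_sum_type]
    congr 1
    · refine Finset.sum_congr rfl fun r _ => ?_
      rw [h0, mul_zero, mul_zero]
  set E : Ten (Ix m (Fin n)) K := fun i j l =>
    D' i j l - ∑ r, (a r i * D r j l + a r j * D i r l + a r l * D i j r) with hE
  have hEs : IsSym E := by
    constructor
    · intro i j l
      simp only [hE]
      rw [hD'.swap12 i j l]
      congr 1
      refine Finset.sum_congr rfl fun r _ => ?_
      rw [hD.swap12 r j l, hD.swap12 i r l, hD.swap12 i j r]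
      ring
    · intro i j l
      simp only [hE]
      rw [hD'.swap23 i j l]
      congr 1
      refine Finset.sum_congr rfl fun r _ => ?_
      rw [hD.swap23 r j l, hD.swap23 i r l, hD.swap23 i j r]
      ring
  have hE0 : ∀ i j k, E (.inl i) (.inl j) (.inl k) = 0 := by
    intro i j k
    simp only [hE]
    rw [Finset.sum_add_distrib, Finset.sum_add_distrib, ha1]
    have e1 : ∑ r, a r (.inl j) * D (.inl i) r (.inl k) =
        D' (.inl i) (.inl j) (.inl k) / 3 := by
      rw [hD'.swap12, ← ha1]
      refine Finset.sum_congr rfl fun r _ => ?_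
      rw [hD.swap12]
    have e2 : ∑ r, a r (.inl k) * D (.inl i) (.inl j) r =
        D' (.inl i) (.inl j) (.inl k) / 3 := by
      rw [hD'.swap23, hD'.swap12, ← ha1]
      refine Finset.sum_congr rfl fun r _ => ?_
      rw [hD.swap23, hD.swap12]
    rw [e1, e2]
    ring
  refine ⟨fun i j k => E i j k / 6, a', fun i j l => ?_⟩
  rw [q4a_symvan E hEs hE0]
  simp only [hE]
  ring


/-- Proof. As `dom` (Sq/Q4.lean), with `hm (-a)` in place of the general matrix. Use
`algInd_of_point` at the point `x` with `x (inl (i, j, l)) = D i j l / 6`, `x (inr q) = 0` (the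
matrix is `1`). Given `b`, let `D'` be the symmetric form with `coeff e (cub D') = b e` (see Q4, or
`tenC b` in Defs4 and `coeff_cub_tenC` in Sr/R3.lean). In the proof of `dir_surj` (Sq/Q4a.lean) take vectors `α i` with
`D(α i, e j, e l) + D(e i, α j, e l) + D(e i, e j, α l) = D' (inl i) (inl j) (inl l)`; as `D`
vanishes on the standard subspace the coordinates `inl` of the `α i` can be replaced by `0`. The
direction with second part `a (i, b) = - α i (inr b)` and with first part `c` such that `symvan c` is
the symmetric form `D' - (D(α ·, ·, ·) + ..)`, which vanishes on the standard subspace, has the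
image `D'`. -/
theorem dom2 {K' : Type*} [Field K'] [CharZero K'] (m n : ℕ) (D : Ten (Ix m (Fin n)) K')
    (hD : IsSym D) (h0 : VanOn D (std m _ K')) (g : Pr m → Ix m (Fin n) → K')
    (hdet : (QM D (std m _ K') g).det ≠ 0) :
    AlgebraicIndependent ℚ (fun e : {e : Ix m (Fin n) →₀ ℕ // e.degree = 3} =>
      coeff e.1 (cub (vD (X : Wv m n → MvPolynomial (Wv m n) ℚ)))) := by
  classical
  -- the point
  obtain ⟨x, hx1, hx2⟩ : ∃ x : Wv m n → K', (∀ i j l, x (.inl (i, j, l)) = D i j l / 6) ∧
      (∀ q, x (.inr q) = 0) := by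
    refine ⟨fun s => match s with
      | .inl (i, j, l) => D i j l / 6
      | .inr _ => 0, fun _ _ _ => rfl, fun _ => rfl⟩
  apply algInd_of_point _ x
  intro b
  -- the number of orderings
  obtain ⟨N, hN⟩ : ∃ N : (Ix m (Fin n) →₀ ℕ) → K', ∀ e, N e = ∑ i, ∑ j, ∑ l,
      if Finsupp.single i 1 + Finsupp.single j 1 + Finsupp.single l 1 = e then (1 : K') else 0 :=
    ⟨_, fun _ => rfl⟩
  have hN0 : ∀ i j l : Ix m (Fin n),
      N (Finsupp.single i 1 + Finsupp.single j 1 + Finsupp.single l 1) ≠ 0 := by
    intro i j l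
    rw [hN]
    obtain ⟨M, hM⟩ : ∃ M : ℕ, M = ∑ i', ∑ j', ∑ l',
        if Finsupp.single i' 1 + Finsupp.single j' 1 + Finsupp.single l' 1 =
          (Finsupp.single i 1 + Finsupp.single j 1 + Finsupp.single l 1 : Ix m (Fin n) →₀ ℕ)
        then 1 else 0 := ⟨_, rfl⟩
    have h1 : 1 ≤ M := by
      have e1 := Finset.single_le_sum (f := fun i' => ∑ j', ∑ l',
        if Finsupp.single i' 1 + Finsupp.single j' 1 + Finsupp.single l' 1 =
          (Finsupp.single i 1 + Finsupp.single j 1 + Finsupp.single l 1 : Ix m (Fin n) →₀ ℕ)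
        then 1 else 0) (fun _ _ => Nat.zero_le _) (Finset.mem_univ i)
      have e2 := Finset.single_le_sum (f := fun j' => ∑ l',
        if Finsupp.single i 1 + Finsupp.single j' 1 + Finsupp.single l' 1 =
          (Finsupp.single i 1 + Finsupp.single j 1 + Finsupp.single l 1 : Ix m (Fin n) →₀ ℕ)
        then 1 else 0) (fun _ _ => Nat.zero_le _) (Finset.mem_univ j)
      have e3 := Finset.single_le_sum (f := fun l' =>
        if Finsupp.single i 1 + Finsupp.single j 1 + Finsupp.single l' 1 =
          (Finsupp.single i 1 + Finsupp.single j 1 + Finsupp.single l 1 : Ix m (Fin n) →₀ ℕ)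
        then 1 else 0) (fun _ _ => Nat.zero_le _) (Finset.mem_univ l)
      simp only [if_true] at e3
      rw [hM]
      exact e3.trans (e2.trans e1)
    have h2 : (M : K') = ∑ i', ∑ j', ∑ l',
        if Finsupp.single i' 1 + Finsupp.single j' 1 + Finsupp.single l' 1 =
          (Finsupp.single i 1 + Finsupp.single j 1 + Finsupp.single l 1 : Ix m (Fin n) →₀ ℕ)
        then (1 : K') else 0 := by
      rw [hM]
      push_cast
      rfl
    rw [← h2]
    exact_mod_cast (by omega : M ≠ 0)
  have hdeg : ∀ i j l : Ix m (Fin n),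
      (Finsupp.single i 1 + Finsupp.single j 1 + Finsupp.single l 1 : Ix m (Fin n) →₀ ℕ).degree =
        3 := by
    intro i j l
    simp [Finsupp.degree_single]
  -- the form
  obtain ⟨D', hD'⟩ : ∃ D' : Ten (Ix m (Fin n)) K', ∀ i j l, D' i j l =
      b ⟨Finsupp.single i 1 + Finsupp.single j 1 + Finsupp.single l 1, hdeg i j l⟩ /
        N (Finsupp.single i 1 + Finsupp.single j 1 + Finsupp.single l 1) := ⟨_, fun _ _ _ => rfl⟩
  have hsym : IsSym D' := by
    constructor
    · intro i j l
      have : (Finsupp.single i 1 + Finsupp.single j 1 + Finsupp.single l 1 :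
          Ix m (Fin n) →₀ ℕ) = Finsupp.single j 1 + Finsupp.single i 1 + Finsupp.single l 1 := by
        rw [add_comm (Finsupp.single i 1 : Ix m (Fin n) →₀ ℕ)]
      rw [hD', hD']
      simp only [this]
    · intro i j l
      have : (Finsupp.single i 1 + Finsupp.single j 1 + Finsupp.single l 1 :
          Ix m (Fin n) →₀ ℕ) = Finsupp.single i 1 + Finsupp.single l 1 + Finsupp.single j 1 := by
        rw [add_right_comm]
      rw [hD', hD']
      simp only [this]
  have hDinl : ∀ i j l : Fin m, D (.inl i) (.inl j) (.inl l) = 0 := by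
    intro i j l
    have := h0 i j l
    rwa [q4_std, q4_std, q4_std, q4_tri_single] at this
  obtain ⟨c, a', hca⟩ := s2_dir D hD hDinl g hdet D' hsym
  set a := s2_A a' with ha
  obtain ⟨v, hv1, hv2⟩ : ∃ v : Wv m n → K', (∀ i j l, v (.inl (i, j, l)) = c i j l) ∧
      (∀ q, v (.inr q) = - a' q) := by
    refine ⟨fun s => match s with
      | .inl (i, j, l) => c i j l
      | .inr q => - a' q, fun _ _ _ => rfl, fun _ => rfl⟩
  refine ⟨v, fun e => ?_⟩
  rw [q4_ev_snd, q4_map_coeff, s2_map_vD]
  have e0 : (fun s => q4_ev x v (X s : MvPolynomial (Wv m n) ℚ)) = du x v := by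
    funext s
    simp [q4_ev]
  rw [e0]
  -- the values of the symmetrized form
  have hfst : ∀ i j l, (symvan (fun i j l => du x v (.inl (i, j, l))) i j l).fst = D i j l := by
    have s1 : ∀ i j l, D i j l + D i l j + D j i l + D j l i + D l i j + D l j i =
        6 * D i j l := by
      intro i j l
      have t1 : D i l j = D i j l := hD.swap23 _ _ _
      have t2 : D j i l = D i j l := hD.swap12 _ _ _
      have t3 : D j l i = D i j l := by rw [hD.swap23, t2]
      have t4 : D l i j = D i j l := by rw [hD.swap12, t1]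
      have t5 : D l j i = D i j l := by rw [hD.swap12, t3]
      rw [t1, t2, t3, t4, t5]
      ring
    intro i j l
    rcases i with i | i <;> rcases j with j | j <;> rcases l with l | l
    · simp only [symvan, TrivSqZeroExt.fst_zero, hDinl]
    all_goals
      simp only [symvan, TrivSqZeroExt.fst_add, fst_du, hx1]
      rw [← add_div, ← add_div, ← add_div, ← add_div, ← add_div, s1]
      field_simp
  have hsnd : ∀ i j l, (symvan (fun i j l => du x v (.inl (i, j, l))) i j l).snd =
      symvan c i j l := by
    intro i j l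
    rcases i with i | i <;> rcases j with j | j <;> rcases l with l | l <;>
      simp only [symvan, TrivSqZeroExt.snd_add, snd_du, hv1, TrivSqZeroExt.snd_zero]
  have hcol : ∀ i : Ix m (Fin n), (fun r => (hm (fun q => - du x v (.inr q)) r i).fst) =
      Pi.single i 1 := by
    intro i
    funext r
    rcases r with r | r <;> rcases i with i | i
    · by_cases h : r = i
      · subst h
        simp [hm]
      · simp [hm, h]
    · simp [hm]
    · simp [hm, fst_du, hx2]
    · by_cases h : r = i
      · subst h
        simp [hm]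
      · simp [hm, h]
  have hcol' : ∀ i : Ix m (Fin n), (fun r => (hm (fun q => - du x v (.inr q)) r i).snd) =
      fun r => a r i := by
    intro i
    funext r
    rcases r with r | r <;> rcases i with i | i
    · by_cases h : r = i
      · subst h
        simp [hm, ha, s2_A]
      · simp [hm, h, ha, s2_A]
    · simp [hm, ha, s2_A]
    · simp [hm, snd_du, hv2, ha, s2_A]
    · by_cases h : r = i
      · subst h
        simp [hm, ha, s2_A]
      · simp [hm, h, ha, s2_A]
  have hkey : ∀ i j l, (vD (du x v) i j l).snd = D' i j l := by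
    intro i j l
    rw [hca, vD, compT, q4_tri_snd]
    simp only [hcol, hcol', hfst, hsnd]
    rw [q4_tri_single, q4_tri_left, hD.tri12 (Pi.single i 1), q4_tri_left,
      hD.tri23 (Pi.single i 1), hD.tri12 (Pi.single i 1), q4_tri_left, Finset.sum_add_distrib,
      Finset.sum_add_distrib]
    have u1 : ∀ r, D r i l = D i r l := fun r => hD.swap12 _ _ _
    have u2 : ∀ r, D r i j = D i j r := fun r => by rw [hD.swap12, hD.swap23]
    simp only [u1, u2]
    ring
  rw [q4_coeff_cub]
  rw [TrivSqZeroExt.snd_sum]
  simp only [TrivSqZeroExt.snd_sum]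
  have h3 : ∀ (i j l : Ix m (Fin n)) (inst : Decidable
      (Finsupp.single i 1 + Finsupp.single j 1 + Finsupp.single l 1 = e.1)),
      (@ite _ (Finsupp.single i 1 + Finsupp.single j 1 + Finsupp.single l 1 = e.1) inst
        (vD (du x v) i j l) 0).snd =
      (b e / N e.1) *
        (if Finsupp.single i 1 + Finsupp.single j 1 + Finsupp.single l 1 = e.1
          then (1 : K') else 0) := by
    intro i j l inst
    by_cases h : Finsupp.single i 1 + Finsupp.single j 1 + Finsupp.single l 1 = e.1
    · rw [if_pos h, if_pos h, hkey, hD', mul_one]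
      have h4 : (⟨Finsupp.single i 1 + Finsupp.single j 1 + Finsupp.single l 1, hdeg i j l⟩ :
          {e : Ix m (Fin n) →₀ ℕ // e.degree = 3}) = e := Subtype.ext h
      rw [h4, h]
    · rw [if_neg h, if_neg h]
      simp
  refine Eq.trans (Finset.sum_congr rfl fun i _ => Finset.sum_congr rfl fun j _ =>
    Finset.sum_congr rfl fun l _ => h3 i j l _) ?_
  simp only [← Finset.mul_sum]
  refine Eq.trans (congrArg (fun t => b e / N e.1 * t) (a₂ := N e.1) ?_) ?_
  · rw [hN]
    refine Finset.sum_congr rfl fun i _ => Finset.sum_congr rfl fun j _ =>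
      Finset.sum_congr rfl fun l _ => ?_
    by_cases h : Finsupp.single i 1 + Finsupp.single j 1 + Finsupp.single l 1 = e.1
    · rw [if_pos h, if_pos h]
    · rw [if_neg h, if_neg h]
  obtain ⟨i, j, l, hijl⟩ : ∃ i j l : Ix m (Fin n),
      (Finsupp.single i 1 + Finsupp.single j 1 + Finsupp.single l 1) = e.1 := by
    have h5 : Multiset.card (Finsupp.toMultiset e.1) = 3 := by
      rw [Finsupp.card_toMultiset]
      exact e.2
    obtain ⟨i, j, l, h6⟩ := Multiset.card_eq_three.1 h5
    refine ⟨i, j, l, ?_⟩
    apply Finsupp.orderIsoMultiset.injective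
    rw [Finsupp.coe_orderIsoMultiset]
    rw [h6, map_add, map_add, Finsupp.toMultiset_single, Finsupp.toMultiset_single,
      Finsupp.toMultiset_single]
    simp only [one_smul, Multiset.insert_eq_cons]
    rfl
  have h7 : N e.1 ≠ 0 := by
    rw [← hijl]
    exact hN0 i j l
  field_simp

end Pool.Agent.Helper76.UF
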